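import Pool.Agent.P.MP_1639c2_lc.Gap

namespace Pool.Agent.Results.MP_1639c2_lc.Gap

open Pool.Agent.P.MP_1639c2_lc

/-- For maximum degree two, violation one cannot be reached at the cost of the linear
programming relaxation. -/
theorem result :
    ∃ (edge : Fin 10 → Finset (Fin 10 × Fin 3)) (l u : Fin 10 → ℤ) (c x : Fin 10 × Fin 3 → ℝ),
      Function.Injective edge ∧ (∀ v, degree edge v ≤ 2) ∧ (∃ v, degree edge v = 2) ∧
      (∀ e, l e ≤ u e) ∧ (∀ v, 0 ≤ c v) ∧ (∃ B, NearFeasible gM edge l u 0 0 B) ∧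
      LPFeasible gM edge l u x ∧
      ∀ B, NearFeasible gM edge l u 1 1 B → ∑ v, c v * x v < ∑ v ∈ B, c v := by
  refine ⟨gEdge, gL, gU, fun v => (gCost v : ℝ), fun v => (gNum v : ℝ) / 188, g_inj, g_degree.1,
    g_degree.2, g_le, fun v => Nat.cast_nonneg _, ⟨_, g_feasible⟩, gx_feasible, fun B hB => ?_⟩
  rw [gx_cost]
  linarith [g_near B hB]

end Pool.Agent.Results.MP_1639c2_lc.Gap
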