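import Pool.Agent.P.MP_1639c2_lc.W.Final
import Pool.Agent.P.MP_1639c2_lc.W.AlgPT2

namespace Pool.Agent.Results.MP_1639c2_lc.LargeDegree

open Pool.Agent.P.MP_1639c2_lc.W Pool.Agent.Lib.NP Finset

theorem result : ∃ (q out : Inst × List Bool → List Bool) (p : Polynomial ℕ),
    N68a2faeb.IsPolyTime q ∧ N68a2faeb.IsPolyTime out ∧
    ∀ (c : List ℤ) (H : List (List Bool × ℤ × ℤ)) (M : Matroid ℕ) (O : List Bool → Bool) (D : ℕ),
      M.E = Set.Iio c.length → (∀ b, O b = true ↔ M.Indep (mask b : Set ℕ)) → 100000 ≤ D →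
      (∀ v < c.length, (H.countP fun e => decide (v ∈ mask e.1)) ≤ D) →
      ∀ Z : Finset ℕ, M.IsBase (Z : Set ℕ) →
        (∀ e ∈ H, e.2.1 ≤ ((Z ∩ mask e.1).card : ℤ) ∧ ((Z ∩ mask e.1).card : ℤ) ≤ e.2.2) →
        ∀ B : Finset ℕ, B = mask (out ((c, H), transcript q O (c, H)
            (p.eval (N487b59b3.bitEncode ((c, H) : Inst)).length))) →
          M.IsBase (B : Set ℕ) ∧ ∑ v ∈ B, c.getD v 0 ≤ ∑ v ∈ Z, c.getD v 0 ∧
            ∀ e ∈ H,
              (e.2.1 : ℝ) - min ((D : ℝ) - 1) (75 * √((D : ℝ) * Real.logb 2 D)) ≤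
                  ((B ∩ mask e.1).card : ℝ) ∧
                ((B ∩ mask e.1).card : ℝ) ≤
                  (e.2.2 : ℝ) + min ((D : ℝ) - 1) (75 * √((D : ℝ) * Real.logb 2 D)) := by
  obtain ⟨q, out, p, hq, hout, hp⟩ := opt_alg
  refine ⟨q, out, p, hq.isPolyTime (fun _ => rfl) (fun _ => rfl),
    hout.isPolyTime (fun _ => rfl) (fun _ => rfl), ?_⟩
  intro c H M O D hE hO hD hdeg Z hZ hf B hB
  have h1 : out ((c, H), transcript q O (c, H)
      (p.eval (N487b59b3.bitEncode ((c, H) : Inst)).length)) = alg O (c, H) :=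
    hp O (c, H) _ le_rfl
  rw [h1] at hB
  subst hB
  obtain ⟨h2, h3, h4⟩ := alg_spec (c, H) ⟨hE, hO⟩ hZ hf
  have h5 := par_V_le (c, H) hD hdeg
  refine ⟨h2, h3, fun e he => ?_⟩
  obtain ⟨h6, h7⟩ := h4 e he
  constructor <;> linarith

end Pool.Agent.Results.MP_1639c2_lc.LargeDegree
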