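import Pool.Agent.P.MP_1639c2_lc.Round

namespace Pool.Agent.Results.MP_1639c2_lc.Rounding

open Pool.Agent.P.MP_1639c2_lc

/-- Rounding of the linear programming relaxation with weights on the hyperedges. -/
theorem result (V E : Type) [Fintype V] [DecidableEq V] [Fintype E]
    (M : Matroid V) (edge : E → Finset V) (l u : E → ℤ) (c x : V → ℝ)
    (hx : LPFeasible M edge l u x) (α β : E → ℝ) (A : ℝ)
    (hα : ∀ e, 0 ≤ α e) (hβ : ∀ e, 0 ≤ β e)
    (hA : ∀ v, ∑ e ∈ Finset.univ.filter (fun e => v ∈ edge e), α e ≤ A)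
    (hB : ∀ v, ∑ e ∈ Finset.univ.filter (fun e => v ∈ edge e), β e ≤ 1 - A) :
    ∃ B : Finset V, M.IsBase (B : Set V) ∧ ∑ v ∈ B, c v ≤ ∑ v, c v * x v ∧
      ∀ e, ∀ p : ℕ,
        (1 ≤ α e * (p + 1) + min (α e) (β e) → l e - p ≤ ((B ∩ edge e).card : ℤ)) ∧
        (1 ≤ β e * (p + 1) + min (α e) (β e) → ((B ∩ edge e).card : ℤ) ≤ u e + p) := by
  classical
  exact rounding M edge l u c x hx α β A hα hβ hA hB

end Pool.Agent.Results.MP_1639c2_lc.Rounding
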